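import Pool.Agent.K.MP_65ad7c_ag.C35

/-! Every irreducible component of the `GL_r` character variety of the fundamental group of a
compact Kaehler manifold has trivial Albanese: the case `k = 0` of Q1. -/

open scoped Manifold ContDiff

namespace Pool.Agent.Results.MP_65ad7c_ag.AlbaneseTrivial

theorem result (n r : ℕ) (X : Type) [TopologicalSpace X] [T2Space X] [CompactSpace X]
    [ConnectedSpace X] [ChartedSpace (PW.EC n) X] [IsManifold 𝓘(ℂ, PW.EC n) ω X]
    (hK : PW.IsKahler n X) (x₀ : X)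
    (P : Ideal (MvPolynomial (FundamentalGroup X x₀) ℂ))
    (hP : P ∈ (MvPolynomial.vanishingIdeal ℂ
      (PW.charVar (FundamentalGroup X x₀) r)).minimalPrimes)
    (g M : ℕ) (Λ : Submodule ℤ (PW.EC g)) [DiscreteTopology Λ] [IsZLattice ℝ Λ]
    (Θ : PW.EC g → Fin (M + 1) → ℂ) (hΘ : PW.IsAbelianEmb Λ Θ)
    (f : Fin (M + 1) → MvPolynomial (FundamentalGroup X x₀) ℂ)
    (hf : ∀ y ∈ PW.charVar (FundamentalGroup X x₀) r ∩ MvPolynomial.zeroLocus ℂ P,
      (fun i => MvPolynomial.eval y (f i)) ≠ 0 →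
        ∃ (c : ℂ) (z : PW.EC g), (fun i => MvPolynomial.eval y (f i)) = c • Θ z) :
    ∀ y ∈ PW.charVar (FundamentalGroup X x₀) r ∩ MvPolynomial.zeroLocus ℂ P,
      ∀ y' ∈ PW.charVar (FundamentalGroup X x₀) r ∩ MvPolynomial.zeroLocus ℂ P,
        (fun i => MvPolynomial.eval y (f i)) ≠ 0 → (fun i => MvPolynomial.eval y' (f i)) ≠ 0 →
          ∃ c : ℂ, (fun i => MvPolynomial.eval y' (f i)) =
            c • fun i => MvPolynomial.eval y (f i) :=
  PW.main n r X hK x₀ P hP g M Λ Θ hΘ f hf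

end Pool.Agent.Results.MP_65ad7c_ag.AlbaneseTrivial
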