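import Pool.Agent.K.MP_65ad7c_ag.C38
import Pool.Agent.P.MP_65ad7c_ag.CtH
import Pool.Agent.P.MP_65ad7c_ag.CqG

open Pool.Agent.PQ
open Pool.Agent.PW (EC IsKahler)
open scoped Manifold ContDiff

theorem Pool.Agent.Results.MP_65ad7c_ag.HodgeTate.result (n r : ℕ) (X : Type) [TopologicalSpace X]
    [T2Space X] [CompactSpace X] [ConnectedSpace X] [ChartedSpace (EC n) X]
    [IsManifold 𝓘(ℂ, EC n) ω X] (hK : IsKahler n X)
    (x₀ : X) (G : Subgroup (GL (Fin r) ℂ)) (hG : IsRed G)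
    (Y : Type) [TopologicalSpace Y] (e : Y → Fn (FundamentalGroup X x₀) G → ℂ)
    (he : Topology.IsEmbedding e) (hY : IsComp (Set.range e)) :
    (∀ y, ∃ y', IsS (e y) (e y')) ∧
      (∀ (N d : ℕ) (ι : Type) [Finite ι] (Z : Set (Amb N)) (D : ι → Set (Amb N)), IsSNC d Z D →
        ∀ π : ↥(Z \ ⋃ a, D a) ≃ₜ Y, Set.MapsTo cj Z Z → (∀ a, ∃ b, Set.MapsTo cj (D a) (D b)) →
          (∀ u u', u'.1 = cj u.1 → IsS (e (π u)) (e (π u'))) →
            ∃ M : Model fun y y' => IsS (e y) (e y'), M.R.N = N ∧ M.R.ι = ι ∧ HEq M.R.Z Z ∧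
              HEq M.R.D D ∧ M.I = M.R.K ∧ HEq M.p (CategoryTheory.CategoryStruct.id M.I)) ∧
      ∀ (M : Model fun y y' => IsS (e y) (e y')) (j k : ℕ), M.W j (2 * k + 1) = M.W j (2 * k) ∧
        (∀ x ∈ M.W j (2 * k) ∩ M.F j (k + 1), ∃ b : Sec M.I (j - 1) ⊤, x = dv j b) ∧
        ∀ x : Sec M.I j ⊤, dv (j + 1) x = 0 →
          ∃ w ∈ M.W j (2 * k), ∃ f ∈ M.F j (k + 1), x = w + f :=
  ⟨exists_isS n r X hK x₀ G hG Y e hY,
    fun N d ι _ Z D h π h1 h2 h3 => model_smooth _ N d ι Z D h π h1 h2 h3,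
    fun M => M.tate (hasFlow n r X hK x₀ G hG Y e he hY)⟩

/-- Control: with the same definitions the weight `1` occurs in `H^1` of the Fermat cubic, and
`F^0 ≠ F^1 ≠ F^2` there. -/
theorem Pool.Agent.Results.MP_65ad7c_ag.HodgeTate.control_odd (Z : Set (Amb 3))
    (hZ : Z = {x | ∃ v : Fin 3 → ℂ, v ≠ 0 ∧ v 0 ^ 3 + v 1 ^ 3 + v 2 ^ 3 = 0 ∧ proj v = x})
    (D : Fin 0 → Set (Amb 3)) :
    ∃ M : Model fun u u' : ↥(Z \ ⋃ a, D a) => u'.1 = cj u.1,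
      M.R.N = 3 ∧ HEq M.R.Z Z ∧ HEq M.R.D D ∧ M.W 1 1 ≠ M.W 1 0 ∧
        M.F 1 0 ≠ M.F 1 1 ∧ M.F 1 1 ≠ M.F 1 2 :=
  Pool.Agent.Ctrl.ctrl_odd Z hZ D

/-- Control: the weight `2` occurs in `H^1` of the projective line minus two points, and
`F^1 ≠ F^2` there. -/
theorem Pool.Agent.Results.MP_65ad7c_ag.HodgeTate.control_even (Z : Set (Amb 2))
    (hZ : Z = {x | ∃ v : Fin 2 → ℂ, v ≠ 0 ∧ proj v = x})
    (D : Fin 2 → Set (Amb 2)) (hD : D = fun a => Z ∩ {x | x (a, a) = 0}) :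
    ∃ M : Model fun u u' : ↥(Z \ ⋃ a, D a) => u'.1 = cj u.1,
      M.R.N = 2 ∧ HEq M.R.Z Z ∧ HEq M.R.D D ∧ M.W 1 2 ≠ M.W 1 1 ∧ M.F 1 1 ≠ M.F 1 2 :=
  Pool.Agent.Ctrl.ctrl_even Z hZ D hD

/-- Control: column `≥ 1` (weight below the degree) means exact on `Z`. -/
theorem Pool.Agent.Results.MP_65ad7c_ag.HodgeTate.control_col {N n : ℕ} {ι : Type}
    (Z : Set (Amb N)) (D : ι → Set (Amb N)) (a : Form N (n + 1)) :
    Col Z D 1 a ↔ ∃ b : Form N n, Sm b ∧ Nul Z (a - dd b) :=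
  Pool.Agent.Ctrl.col_one a

/-- Control: all hypotheses hold, and a model exists, on a singular Betti space. For an elliptic
curve and `G = SL_2` (the Cayley cubic) there is a model of dimension `2` with four point strata,
and the weight `4` occurs in `IH^2`. -/
theorem Pool.Agent.Results.MP_65ad7c_ag.HodgeTate.control_sing (G : Subgroup (GL (Fin 2) ℂ))
    (hG : ∀ g, g ∈ G ↔ g.1 0 0 * g.1 1 1 - g.1 0 1 * g.1 1 0 = 1) : IsRed G ∧
      ∃ (X : Type) (_ : TopologicalSpace X) (_ : T2Space X) (_ : CompactSpace X)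
        (_ : ConnectedSpace X) (_ : ChartedSpace (EC 1) X) (_ : IsManifold 𝓘(ℂ, EC 1) ω X)
        (x₀ : X) (ε : FundamentalGroup X x₀ ≃ ℤ × ℤ),
        IsKahler 1 X ∧ (∀ a b, ε (a * b) = ε a + ε b) ∧
        (∃ Y : Set (Fn (FundamentalGroup X x₀) G → ℂ), IsComp Y) ∧
        ∀ (Y : Type) [TopologicalSpace Y] (e : Y → Fn (FundamentalGroup X x₀) G → ℂ),
          Topology.IsEmbedding e → IsComp (Set.range e) →
            ∃ M : Model fun y y' => IsS (e y) (e y'),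
              M.R.d = 2 ∧ Nonempty (↥(M.U 2 : Set Y)ᶜ ≃ Fin 4) ∧ M.W 2 4 ≠ M.W 2 3 :=
  Pool.Agent.Cq.ctrl_ell G hG
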