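import Pool.Agent.K.MP_65ad7c_ag.C116
import Pool.Agent.P.MP_65ad7c_ag.CtG

open TopologicalSpace Pool.Agent.PW Pool.Agent.PWD Pool.Agent.PWF
open scoped Manifold ContDiff

theorem Pool.Agent.Results.MP_65ad7c_ag.WeightsIH.result (n r : ℕ) (X : Type) [TopologicalSpace X]
    [T2Space X] [CompactSpace X] [ConnectedSpace X] [ChartedSpace (EC n) X]
    [IsManifold 𝓘(ℂ, EC n) ω X] (hK : IsKahler n X)
    (x₀ : X) (G : Subgroup (GL (Fin r) ℂ)) (hG : Red G) (R : Type) [CommRing R] [Algebra ℂ R]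
    (e : (FundamentalGroup X x₀ →* G) → R →ₐ[ℂ] ℂ) (he : IsInv e)
    (P : Ideal R) (hP : P ∈ minimalPrimes R) :
    (∀ y : Pts P, ∃ y' : Pts P, Cnj e y.1 y'.1) ∧
      (∃ (d : ℕ) (U : ℕ → Opens (Pts P)) (I : Cx (Pts P)) (one : Sec I 0 (U 1)),
        IsStrat d U ∧ (U 1).1.Nonempty ∧ IsIC U I one) ∧
      ∀ (d : ℕ) (U : ℕ → Opens (Pts P)) (I : Cx (Pts P)) (one : Sec I 0 (U 1)),
        IsStrat d U → IsIC U I one →
        ((U 1).1.Nonempty → ∃ (U' : ℕ → Opens (Pts P)) (one' : Sec I 0 (U' 1)),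
          IsStrat d U' ∧ IsIC U' I one' ∧ ∀ m, ∃ Q : Data (Pts P) (d - m),
            Model Q (Cnj e) d m (fun c => U' c) ∧
            (∀ α : Glo I m, Coc Set.univ α → α ∈ WQ one' Q (2 * m)) ∧
            Inj I {y | ∀ i : Fin (d - m), Q.c i.castSucc ⬝ᵥ Q.vec y = 0} m) ∧
        ∀ (m : ℕ) (Q : Data (Pts P) (d - m)), Model Q (Cnj e) d m (fun c => U c) →
          ∀ k, WQ one Q (2 * k + 1) = WQ one Q (2 * k) :=
  fin_q' n r X hK x₀ G hG R e he P hP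

/-- Control: on the affine Fermat cubic (an elliptic curve minus three points) the same
definitions give `0 = W_0 ≠ W_1 ≠ W_2 = H^1`. -/
theorem Pool.Agent.Results.MP_65ad7c_ag.WeightsIH.control :
    ∃ (P : Ideal (MvPolynomial (Fin 2) ℂ)) (U : ℕ → Opens (Pts P)) (I : Cx (Pts P))
      (one : Sec I 0 (U 1)) (Q : Data (Pts P) (1 - 1)),
      (∀ y, y ∈ Pts P ↔ ∃ w : Fin 2 → ℂ, 1 + w 0 ^ 3 + w 1 ^ 3 = 0 ∧ y = MvPolynomial.eval w) ∧
      IsStrat 1 U ∧ IsIC U I one ∧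
      Model Q (fun y y' => ∀ w, y = MvPolynomial.eval w →
        y' = MvPolynomial.eval fun j => starRingEnd ℂ (w j)) 1 1 (fun c => U c) ∧
      (∀ α : Glo I 1, α ∈ WQ one Q 0 ↔ ∃ s : Glo I 0, α = dd 0 1 s) ∧
      WQ one Q 1 ≠ WQ one Q 0 ∧ WQ one Q 2 ≠ WQ one Q 1 ∧
      ∀ α : Glo I 1, Coc Set.univ α → α ∈ WQ one Q 2 :=
  Pool.Agent.Ctrl.ctrl_w
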